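import Pool.Agent.W622.BK.Stm

/-! # `D_n(X)` is monotone in `X` -/

set_option autoImplicit false

namespace Pool.Agent.W120.BK

open Module Pool.Agent.W622.BK

universe u

theorem mono_aux (k : Type u) [Field k] (E : Type u) [AddCommGroup E] [Module k E]
    (R : Submodule k (E →ₗ[k] E →ₗ[k] k)) (X Y : Submodule k (E →ₗ[k] k)) (hXY : X ≤ Y) :
    ∀ n : ℕ, D R X n ≤ D R Y n
  | 0 => le_refl _
  | 1 => fun _ hω => hXY hω
  | n + 2 => fun _ hω => ⟨fun e => mono_aux k E R X Y hXY (n + 1) (hω.1 e), hω.2⟩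

theorem t_MONO : S_MONO.{u} := fun k _ E _ _ R X Y n h => mono_aux k E R X Y h n

end Pool.Agent.W120.BK
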