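import Pool.Agent.W622.BK.Stm

/-! # `N(X,u) ≤ H(X,u)` -/

set_option autoImplicit false

namespace Pool.Agent.W120.BK

open Module Pool.Agent.W622.BK

universe u

theorem t_NH : S_NH.{u} := by
  intro k _ E _ _ R X u hR f hf
  obtain ⟨r, hr, rfl⟩ := Submodule.mem_map.1 hf
  refine Submodule.mem_inf.2 ⟨?_, ?_⟩
  · exact hr.2 u
  · rw [LinearMap.mem_ker]
    exact hR r hr.1 u

end Pool.Agent.W120.BK
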